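import Pool.Agent.MWG.Stmts

/-!
# Block MWG, row EET (MP_23468a_al): with `E` or `T` all multiple letters commute
-/

set_option autoImplicit false

namespace Pool.Agent.MWG.H62

open Pool.Agent.Helper14_MV Pool.Agent.Helper2_MV Pool.Agent.MVO Pool.Agent.MWL Pool.Agent.MWS

theorem ctx {θ : FIC} {l l' : List ℕ} (p q : List ℕ) (h : RR θ l l') :
    RR θ (p ++ l ++ q) (p ++ l' ++ q) :=
  ((RR.refl (β := θ) p).append h).append (RR.refl (β := θ) q)

/-- a letter which occurs before can be doubled -/
theorem dbl_in (hG : GmdStmt) {β θ : FIC} (hB : ClM β) (hle : β ≤ θ) (p q : List ℕ) (x : ℕ)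
    (hx : x ∈ p) : RR θ (p ++ x :: q) (p ++ x :: x :: q) :=
  hle _ _ ((hG β hB).1 p q x 1 2 hx (by omega) (by omega))

theorem two_split {x : ℕ} {w : List ℕ} (h : 2 ≤ w.count x) :
    ∃ p q, w = p ++ x :: q ∧ x ∈ p := by
  have h1 : x ∈ w := List.count_pos_iff.1 (by omega)
  obtain ⟨p, q, rfl⟩ := List.append_of_mem h1
  by_cases hp : x ∈ p
  · exact ⟨p, q, rfl, hp⟩
  · have h0 : p.count x = 0 := List.count_eq_zero.2 hp
    rw [List.count_append, h0, List.count_cons_self] at h
    have h2 : x ∈ q := List.count_pos_iff.1 (by omega)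
    obtain ⟨q1, q2, rfl⟩ := List.append_of_mem h2
    refine ⟨p ++ x :: q1, q2, by simp, by simp⟩

theorem ee_add (hG : GmdStmt) {β θ : FIC} (hB : ClM β) (hle : β ≤ θ) (hE : EE θ) (w : List ℕ)
    (x : ℕ) (h : 2 ≤ w.count x) : RR θ w (w ++ [x]) := by
  obtain ⟨p, q, rfl, hp⟩ := two_split h
  have h1 := dbl_in hG hB hle p q x hp
  have h2 := dbl_in hG hB hle p (q ++ [x]) x hp
  have h3 := hE.sub (fun c => if c = 0 then [x] else q)
  have e1 : ([0, 0, 2] : List ℕ).flatMap (fun c => if c = 0 then [x] else q) = [x, x] ++ q := by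
    simp
  have e2 : ([0, 0, 2, 0] : List ℕ).flatMap (fun c => if c = 0 then [x] else q) =
      [x, x] ++ q ++ [x] := by
    simp
  rw [e1, e2] at h3
  have h4 := (RR.refl (β := θ) p).append h3
  have e3 : p ++ ([x, x] ++ q) = p ++ x :: x :: q := by simp
  have e4 : p ++ ([x, x] ++ q ++ [x]) = p ++ x :: x :: (q ++ [x]) := by simp
  rw [e3, e4] at h4
  have e5 : p ++ x :: q ++ [x] = p ++ x :: (q ++ [x]) := by simp
  rw [e5]
  exact θ.trans h1 (θ.trans h4 (RR.symm h2))

theorem tt_dbl (hG : GmdStmt) {β θ : FIC} (hB : ClM β) (hle : β ≤ θ) (hT : TT θ)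
    (p q : List ℕ) (x : ℕ) (h : 2 ≤ (p ++ x :: q).count x) :
    RR θ (p ++ x :: q) (p ++ x :: x :: q) := by
  by_cases hp : x ∈ p
  · exact dbl_in hG hB hle p q x hp
  · have h0 : p.count x = 0 := List.count_eq_zero.2 hp
    rw [List.count_append, h0, List.count_cons_self] at h
    have h2 : x ∈ q := List.count_pos_iff.1 (by omega)
    obtain ⟨q1, q2, rfl⟩ := List.append_of_mem h2
    have h3 := hT.sub (fun c => if c = 0 then [x] else q1)
    have h4 := ctx p q2 h3
    have e1 : p ++ ([0, 2, 0] : List ℕ).flatMap (fun c => if c = 0 then [x] else q1) ++ q2 =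
        p ++ x :: (q1 ++ x :: q2) := by simp
    have e2 : p ++ ([0, 0, 2, 0] : List ℕ).flatMap (fun c => if c = 0 then [x] else q1) ++ q2 =
        p ++ x :: x :: (q1 ++ x :: q2) := by simp
    rw [e1, e2] at h4
    exact h4

theorem eet (hG : GmdStmt) : EetStmt := by
  intro β θ hB hle hET p q x y hx hy
  by_cases hxy : x = y
  · subst hxy
    exact RR.refl _
  have hyx : ¬ y = x := fun h => hxy h.symm
  have cx : (p ++ x :: y :: q).count x = p.count x + 1 + q.count x := by
    rw [List.count_append, List.count_cons_self, List.count_cons_of_ne hyx]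
    omega
  have cy : (p ++ x :: y :: q).count y = p.count y + 1 + q.count y := by
    rw [List.count_append, List.count_cons_of_ne hxy, List.count_cons_self]
    omega
  have cx' : (p ++ y :: x :: q).count x = p.count x + 1 + q.count x := by
    rw [List.count_append, List.count_cons_of_ne hyx, List.count_cons_self]
    omega
  have cy' : (p ++ y :: x :: q).count y = p.count y + 1 + q.count y := by
    rw [List.count_append, List.count_cons_self, List.count_cons_of_ne hxy]
    omega
  rcases hET with hE | hT
  · -- the identity `E`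
    have h1 := ee_add hG hB hle hE (p ++ x :: y :: q) x hx
    have h2 := ee_add hG hB hle hE (p ++ x :: y :: q ++ [x]) y (by
      rw [List.count_append]
      omega)
    have h3 := ee_add hG hB hle hE (p ++ y :: x :: q) x (by omega)
    have h4 := ee_add hG hB hle hE (p ++ y :: x :: q ++ [x]) y (by
      rw [List.count_append]
      omega)
    have h5 := hle _ _ (hB.cmw p (q ++ [x, y]) x y [x, y] ⟨q, [], by simp⟩ (by simp) (by simp) (by
      intro z hz
      have e : p ++ x :: y :: (q ++ [x, y]) = (p ++ x :: y :: q) ++ [x, y] := by simp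
      rw [e, List.count_append]
      have hz' : z = x ∨ z = y := by simpa using hz
      rcases hz' with rfl | rfl
      · omega
      · omega))
    have e1 : p ++ x :: y :: q ++ [x] ++ [y] = p ++ x :: y :: (q ++ [x, y]) := by simp
    have e2 : p ++ y :: x :: q ++ [x] ++ [y] = p ++ y :: x :: (q ++ [x, y]) := by simp
    rw [e1] at h2
    rw [e2] at h4
    exact θ.trans (θ.trans h1 h2) (θ.trans h5 (RR.symm (θ.trans h3 h4)))
  · -- the identity `T`
    have h1 := tt_dbl hG hB hle hT p (y :: q) x hx
    have h2 := tt_dbl hG hB hle hT (p ++ [x, x]) q y (by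
      have : (p ++ [x, x] ++ y :: q).count y = p.count y + 1 + q.count y := by
        rw [List.count_append, List.count_append, List.count_cons_self,
          List.count_cons_of_ne hxy, List.count_cons_of_ne hxy, List.count_nil]
        omega
      omega)
    have h3 := ctx p q (hle _ _ (hB.r0.sub (fun c => if c = 0 then [x] else [y])))
    have h4 := tt_dbl hG hB hle hT p (x :: x :: q) y (by
      have : (p ++ y :: x :: x :: q).count y = p.count y + 1 + q.count y := by
        rw [List.count_append, List.count_cons_self, List.count_cons_of_ne hxy,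
          List.count_cons_of_ne hxy]
        omega
      omega)
    have h5 := tt_dbl hG hB hle hT (p ++ [y]) q x (by
      have e : p ++ [y] ++ x :: q = p ++ y :: x :: q := by simp
      rw [e]
      omega)
    have e1 : p ++ [x, x] ++ y :: q = p ++ x :: x :: y :: q := by simp
    have e2 : p ++ [x, x] ++ y :: y :: q = p ++ x :: x :: y :: y :: q := by simp
    have e3 : p ++ ([0, 0, 1, 1] : List ℕ).flatMap (fun c => if c = 0 then [x] else [y]) ++ q =
        p ++ x :: x :: y :: y :: q := by simp
    have e4 : p ++ ([1, 1, 0, 0] : List ℕ).flatMap (fun c => if c = 0 then [x] else [y]) ++ q =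
        p ++ y :: y :: x :: x :: q := by simp
    have e5 : p ++ [y] ++ x :: q = p ++ y :: x :: q := by simp
    have e6 : p ++ [y] ++ x :: x :: q = p ++ y :: x :: x :: q := by simp
    rw [e1, e2] at h2
    rw [e3, e4] at h3
    rw [e5, e6] at h5
    exact θ.trans h1 (θ.trans h2 (θ.trans h3 (RR.symm (θ.trans h5 h4))))

end Pool.Agent.MWG.H62
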